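import Mathlib
import Pool.Agent.Lib.MP_0a1b52_lc_FP.Cov
import Pool.Agent.Lib.MP_0a1b52_lc_FP.Emb
import Pool.Agent.Lib.MP_0a1b52_lc_FP.Pass

/-!
# Circuits for the clique function whose refutation trees read the edges in few passes
-/

namespace Pool.Agent.Results.MP_0a1b52_lc.FewPasses

open Pool.Agent.FP

theorem log_bound {s K r : ℕ} (hs : 1 ≤ s) (hK : K ≤ (16 * s) ^ (4 * r + 3)) :
    Real.logb 2 K ≤ (4 * r + 3) * (4 + Real.logb 2 s) := by
  have hs0 : (0 : ℝ) < s := by exact_mod_cast hs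
  have hs1 : 0 ≤ Real.logb 2 s := Real.logb_nonneg (by norm_num) (by exact_mod_cast hs)
  rcases Nat.eq_zero_or_pos K with h0 | h0
  · rw [h0, Nat.cast_zero, Real.logb_zero]
    positivity
  · have h1 : (K : ℝ) ≤ ((16 * s : ℝ)) ^ (4 * r + 3) := by exact_mod_cast hK
    calc Real.logb 2 K ≤ Real.logb 2 (((16 * s : ℝ)) ^ (4 * r + 3)) :=
          Real.logb_le_logb_of_le (by norm_num) (by exact_mod_cast h0) h1
      _ = (4 * r + 3) * (4 + Real.logb 2 s) := by
          rw [Real.logb_pow, Real.logb_mul (by norm_num) hs0.ne']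
          have e : Real.logb 2 16 = 4 := by
            rw [show (16 : ℝ) = 2 ^ (4 : ℝ) by norm_num, Real.logb_rpow (by norm_num) (by norm_num)]
          rw [e]
          push_cast
          ring

/-- the main bound for changes between three classes -/
theorem changes_bound (ε : ℝ) (hε : 0 < ε) : ∃ n₀ : ℕ, ∀ n ≥ n₀, ∀ c : EdgeVar n → Fin 3,
    (∀ t, n ^ 2 ≤ 10 * (Finset.univ.filter fun e => c e = t).card) →
    ∀ (s r : ℕ) (D : Circuit (EdgeVar n) s), (∀ x, D.Accepts x ↔ Clq x) →
    (∀ x, ¬ Clq x → ∃ L, D.Refutes x D.out L ∧ changes c L ≤ r) →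
    (n : ℝ) ^ (2 - ε) ≤ (4 * r + 3) * (4 + Real.logb 2 s) := by
  obtain ⟨n₀, h₀⟩ := embed ε hε
  refine ⟨n₀, fun n hn c hc s r D hD hr => ?_⟩
  obtain ⟨K, T, hK, hstar, hT, hcov⟩ := circuit_cover D c r
  have h1 := h₀ n hn c hc K T hstar (fun θ x h h' => hT θ x h ((hD x).2 h'))
    (fun x hx => hcov x (hr x hx))
  have hs : 1 ≤ s := by
    have := D.out.2
    omega
  exact h1.trans (log_bound hs hK)

/-- the refutations of a circuit with one gate consist of one literal -/
theorem one_gate {V : Type} {s : ℕ} (hs : s = 1) (D : Circuit V s) (x : V → Bool) (g : Fin s)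
    (L : List V) (h : D.Refutes x g L) (c : V → Fin 3) : changes c L = 0 := by
  have key : ∀ i j : Fin s, ¬ i < j := by
    intro i j h
    have h1 := i.2
    have h2 := j.2
    have h3 : (i : ℕ) < j := h
    omega
  cases h with
  | lit _ v b _ _ => rfl
  | left _ i j _ h1 _ => exact absurd (D.and_lt g i j h1).1 (key _ _)
  | right _ i j _ h1 _ => exact absurd (D.and_lt g i j h1).1 (key _ _)
  | both _ i j _ _ h1 _ _ => exact absurd (D.or_lt g i j h1).1 (key _ _)

theorem refutes_ne_nil {V : Type} {s : ℕ} {D : Circuit V s} {x : V → Bool} {g : Fin s}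
    {L : List V} (h : D.Refutes x g L) : L ≠ [] := by
  induction h with
  | lit g v b _ _ => simp
  | left g i j L _ _ ih => exact ih
  | right g i j L _ _ ih => exact ih
  | both g i j L L' _ _ _ ih _ => simp [ih]

/-- the graph without edges is rejected -/
theorem not_clq_empty {n : ℕ} (hn : 40 ≤ n) : ¬ Clq (n := n) (fun _ => false) := by
  rintro ⟨K, hK, hcard⟩
  have h1 : (1 : ℝ) ≤ Real.sqrt n := by
    rw [Real.one_le_sqrt]
    have : (40 : ℝ) ≤ n := by exact_mod_cast hn
    linarith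
  have h2 : 1 < K.card := by
    have : (1 : ℝ) < K.card := lt_of_le_of_lt h1 hcard
    exact_mod_cast this
  obtain ⟨a, ha, b, hb, hab⟩ := Finset.one_lt_card.1 h2
  obtain ⟨e, he, -⟩ := hK ha hb hab
  exact Bool.noConfusion he

/-- **Circuits for the clique function and passes over the input.**  For every `ε > 0` and all large
`n`: if, for some order of the variables, each graph rejected by a circuit with `s` gates for
`CLIQUE_n` has a refutation tree which reads the variables in `p` passes over this order, then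
`p * log₂ s ≥ n ^ (2 - ε)`. -/
theorem result (ε : ℝ) (hε : 0 < ε) : ∃ n₀ : ℕ, ∀ n ≥ n₀, ∀ pos : EdgeVar n → ℕ,
    Function.Injective pos → ∀ (s p : ℕ) (D : Circuit (EdgeVar n) s),
    (∀ x, D.Accepts x ↔ Clq x) →
    (∀ x, ¬ Clq x → ∃ L, D.Refutes x D.out L ∧ ReadsIn pos p L) →
    (n : ℝ) ^ (2 - ε) ≤ p * Real.logb 2 s := by
  obtain ⟨n₁, h₁⟩ := changes_bound (ε / 2) (by positivity)
  obtain ⟨n₂, h₂⟩ := changes_bound 1 one_pos
  have hlim : Filter.Tendsto (fun n : ℕ => (n : ℝ) ^ (ε / 2)) Filter.atTop Filter.atTop :=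
    (tendsto_rpow_atTop (by positivity)).comp tendsto_natCast_atTop_atTop
  obtain ⟨n₃, h₃⟩ := Filter.eventually_atTop.1 (hlim.eventually_ge_atTop 75)
  refine ⟨max (max n₁ n₂) (max n₃ 40), fun n hn pos hpos s p D hD hp => ?_⟩
  have hn1 : n₁ ≤ n := le_trans (le_trans (le_max_left _ _) (le_max_left _ _)) hn
  have hn2 : n₂ ≤ n := le_trans (le_trans (le_max_right _ _) (le_max_left _ _)) hn
  have hn3 : n₃ ≤ n := le_trans (le_trans (le_max_left _ _) (le_max_right _ _)) hn
  have hn4 : 40 ≤ n := le_trans (le_trans (le_max_right _ _) (le_max_right _ _)) hn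
  have hn0 : (0 : ℝ) < n := by
    have : 0 < n := by omega
    exact_mod_cast this
  obtain ⟨c, hc, hc'⟩ := Pass_classes hn4 pos hpos
  have hs1 : 1 ≤ s := by
    have := D.out.2
    omega
  -- there are at least two gates
  have hs2 : 2 ≤ s := by
    by_contra hs
    have hs' : s = 1 := by omega
    have h4 := h₂ n hn2 c hc' s 0 D hD fun x hx => by
      obtain ⟨L, hL, -⟩ := hp x hx
      exact ⟨L, hL, (one_gate hs' D x _ L hL c).le⟩
    rw [hs'] at h4
    norm_num at h4
    have h5 : (40 : ℝ) ≤ n := by exact_mod_cast hn4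
    linarith
  have hlog : 1 ≤ Real.logb 2 s := by
    rw [Real.le_logb_iff_rpow_le (by norm_num) (by exact_mod_cast hs1), Real.rpow_one]
    exact_mod_cast hs2
  -- the bound
  have h4 := h₁ n hn1 c hc' s (3 * p) D hD fun x hx => by
    obtain ⟨L, hL, h⟩ := hp x hx
    exact ⟨L, hL, Pass_changes pos c hc h⟩
  have hp1 : 1 ≤ p := by
    by_contra hp0
    have hp' : p = 0 := by omega
    subst hp'
    obtain ⟨L, hL, P, hP, hPL, -⟩ := hp (fun _ => false) (not_clq_empty hn4)
    rw [List.length_eq_zero_iff] at hP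
    subst hP
    simp only [List.flatten_nil] at hPL
    exact refutes_ne_nil hL hPL.symm
  have hp2 : (1 : ℝ) ≤ p := by exact_mod_cast hp1
  have h5 : (4 * ((3 * p : ℕ) : ℝ) + 3) * (4 + Real.logb 2 s) ≤ 75 * (p * Real.logb 2 s) := by
    push_cast
    have h6 : (4 * (3 * (p : ℝ)) + 3) ≤ 15 * p := by linarith
    have h7 : 4 + Real.logb 2 s ≤ 5 * Real.logb 2 s := by linarith
    calc (4 * (3 * (p : ℝ)) + 3) * (4 + Real.logb 2 s) ≤ (15 * p) * (5 * Real.logb 2 s) :=
          mul_le_mul h6 h7 (by linarith) (by positivity)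
      _ = 75 * (p * Real.logb 2 s) := by ring
  have h8 := h₃ n hn3
  have h9 : 75 * (n : ℝ) ^ (2 - ε) ≤ (n : ℝ) ^ (2 - ε / 2) := by
    have e : (2 - ε / 2 : ℝ) = ε / 2 + (2 - ε) := by ring
    rw [e, Real.rpow_add hn0]
    exact mul_le_mul_of_nonneg_right h8 (by positivity)
  linarith

end Pool.Agent.Results.MP_0a1b52_lc.FewPasses
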